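import Pool.Agent.H95.NV.Targets1

/-! Row VCL of the board `nva_modules` (helper63): the vectors and the integral ideals of the
inverse class. -/

set_option autoImplicit false

namespace Pool.Agent.H63.NV

open Pool.Agent.H95.NV NumberField NumberField.InfinitePlace
open scoped nonZeroDivisors
open Pool.Agent.H65.CM4 (Pl rv nm dk dg V2 Fo)
open Pool.Agent.H61.NVK (ci cr Lb nf qd)

section Vec

variable {k K : Type} [Field k] [NumberField k] [Field K] [NumberField K] [Algebra k K]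

/-- the element of a vector -/
noncomputable def vclv (b : 𝓞 k) (δ : K) (u : V2 k) : K :=
  algebraMap k K (u.1 : k) + algebraMap k K (u.2 : k) * w b δ

theorem vcl_coe (c : 𝓞 k) (z : 𝓞 K) :
    ((algebraMap (𝓞 k) (𝓞 K) c * z : 𝓞 K) : K) = algebraMap k K (c : k) * (z : K) := by
  change algebraMap (𝓞 K) K (algebraMap (𝓞 k) (𝓞 K) c * z) = _
  rw [map_mul, ← IsScalarTower.algebraMap_apply, IsScalarTower.algebraMap_apply (𝓞 k) k K]

theorem vclv_add (b : 𝓞 k) (δ : K) (u u' : V2 k) :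
    vclv b δ (u + u') = vclv b δ u + vclv b δ u' := by
  unfold vclv
  rw [Prod.fst_add, Prod.snd_add, cadd, cadd]
  ring

theorem vclv_zero (b : 𝓞 k) (δ : K) : vclv b δ (0 : V2 k) = 0 := by
  simp [vclv]

theorem vclv_mul (b : 𝓞 k) (δ : K) (c : 𝓞 k) (u : V2 k) :
    vclv b δ (c * u.1, c * u.2) = algebraMap k K (c : k) * vclv b δ u := by
  unfold vclv
  rw [cmul, cmul]
  ring

theorem vcl_mem {f A : Ideal (𝓞 k)} {b : 𝓞 k} {δ : K}
    (hL : ∀ z : K, z ∈ Lt f A b δ ↔ ∃ t ∈ f.map (algebraMap (𝓞 k) (𝓞 K)) * Id f A b δ, (t : K) = z)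
    (c : Ideal (𝓞 k)) (u : V2 k) (hu : u ∈ Lb c (A * f)) :
    ∃ v ∈ c.map (algebraMap (𝓞 k) (𝓞 K)) *
      (f.map (algebraMap (𝓞 k) (𝓞 K)) * Id f A b δ), (v : K) = vclv b δ u := by
  obtain ⟨h1, h2⟩ : u.1 ∈ c * (A * f) ∧ u.2 ∈ c := hu
  have g1 : ∃ t ∈ c.map (algebraMap (𝓞 k) (𝓞 K)) *
      (f.map (algebraMap (𝓞 k) (𝓞 K)) * Id f A b δ), (t : K) = algebraMap k K (u.1 : k) := by
    refine Submodule.mul_induction_on (C := fun z : 𝓞 k => ∃ t ∈ c.map (algebraMap (𝓞 k) (𝓞 K)) *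
      (f.map (algebraMap (𝓞 k) (𝓞 K)) * Id f A b δ), (t : K) = algebraMap k K (z : k)) h1 ?_ ?_
    · intro m hm n hn
      obtain ⟨t, ht, e⟩ := (hL (algebraMap k K (n : k))).1 ⟨n, hn, 0, by simp⟩
      refine ⟨algebraMap (𝓞 k) (𝓞 K) m * t, Ideal.mul_mem_mul (Ideal.mem_map_of_mem _ hm) ht, ?_⟩
      rw [vcl_coe, e, ← cmul]
    · rintro x y ⟨t, ht, e⟩ ⟨t', ht', e'⟩
      refine ⟨t + t', Ideal.add_mem _ ht ht', ?_⟩
      rw [cadd, ← e, ← e']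
      rfl
  obtain ⟨t, ht, e⟩ := g1
  obtain ⟨t', ht', e'⟩ := (hL (w b δ)).1 ⟨0, Ideal.zero_mem _, 1, by simp⟩
  refine ⟨t + algebraMap (𝓞 k) (𝓞 K) u.2 * t', Ideal.add_mem _ ht
    (Ideal.mul_mem_mul (Ideal.mem_map_of_mem _ h2) ht'), ?_⟩
  have e2 := vcl_coe (K := K) u.2 t'
  rw [e'] at e2
  unfold vclv
  rw [← e, ← e2]
  rfl

theorem vcl_vec {f A : Ideal (𝓞 k)} {b : 𝓞 k} {δ : K}
    (hL : ∀ z : K, z ∈ Lt f A b δ ↔ ∃ t ∈ f.map (algebraMap (𝓞 k) (𝓞 K)) * Id f A b δ, (t : K) = z)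
    (c : Ideal (𝓞 k)) (v : 𝓞 K) (hv : v ∈ c.map (algebraMap (𝓞 k) (𝓞 K)) *
      (f.map (algebraMap (𝓞 k) (𝓞 K)) * Id f A b δ)) :
    ∃ u ∈ Lb c (A * f), (v : K) = vclv b δ u := by
  refine Submodule.mul_induction_on (C := fun z : 𝓞 K => ∃ u ∈ Lb c (A * f), (z : K) = vclv b δ u)
    hv ?_ ?_
  · intro m hm
    have hm' : m ∈ Ideal.span ((algebraMap (𝓞 k) (𝓞 K)) '' (c : Set (𝓞 k))) := hm
    refine Submodule.span_induction (p := fun (m : 𝓞 K) _ => ∀ n ∈ f.map (algebraMap (𝓞 k) (𝓞 K)) *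
      Id f A b δ, ∃ u ∈ Lb c (A * f), ((m * n : 𝓞 K) : K) = vclv b δ u) ?_ ?_ ?_ ?_ hm'
    · rintro _ ⟨a, ha, rfl⟩ n hn
      obtain ⟨x, hx, y, e⟩ := (hL (n : K)).2 ⟨n, hn, rfl⟩
      refine ⟨(a * x, a * y), ⟨Ideal.mul_mem_mul ha hx, Ideal.mul_mem_right _ _ ha⟩, ?_⟩
      rw [vcl_coe, e]
      exact (vclv_mul b δ a (x, y)).symm
    · intro n _
      refine ⟨0, Submodule.zero_mem _, ?_⟩
      rw [zero_mul, vclv_zero]
      rfl
    · intro m m' _ _ h h' n hn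
      obtain ⟨u, hu, e⟩ := h n hn
      obtain ⟨u', hu', e'⟩ := h' n hn
      refine ⟨u + u', Submodule.add_mem _ hu hu', ?_⟩
      rw [add_mul, vclv_add, ← e, ← e']
      rfl
    · intro a m _ h n hn
      obtain ⟨u, hu, e⟩ := h (a * n) (Ideal.mul_mem_left _ _ hn)
      refine ⟨u, hu, ?_⟩
      rw [← e]
      congr 1
      rw [smul_eq_mul]
      ring
  · rintro x y ⟨u, hu, e⟩ ⟨u', hu', e'⟩
    refine ⟨u + u', Submodule.add_mem _ hu hu', ?_⟩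
    rw [vclv_add, ← e, ← e']
    rfl

end Vec

section Cls

variable {k K : Type} [Field k] [NumberField k] [Field K] [NumberField K] [Algebra k K]

theorem vcl_map_ne {I : Ideal (𝓞 k)} (h : I ≠ ⊥) :
    I.map (algebraMap (𝓞 k) (𝓞 K)) ≠ ⊥ := by
  intro h'
  exact h ((Ideal.map_eq_bot_iff_of_injective
    (FaithfulSMul.algebraMap_injective (𝓞 k) (𝓞 K))).1 h')

theorem vcl_map_inj {I J : Ideal (𝓞 k)}
    (h : I.map (algebraMap (𝓞 k) (𝓞 K)) = J.map (algebraMap (𝓞 k) (𝓞 K))) : I = J := by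
  have := congrArg (Ideal.comap (algebraMap (𝓞 k) (𝓞 K))) h
  rwa [Ideal.comap_map_eq_self_of_faithfullyFlat,
    Ideal.comap_map_eq_self_of_faithfullyFlat] at this

theorem vcl_map_span (x : 𝓞 k) (I : Ideal (𝓞 k)) :
    (Ideal.span {x} * I).map (algebraMap (𝓞 k) (𝓞 K)) =
      Ideal.span {algebraMap (𝓞 k) (𝓞 K) x} * I.map (algebraMap (𝓞 k) (𝓞 K)) := by
  rw [Ideal.map_mul, Ideal.map_span, Set.image_singleton]

theorem vcl_ext_mul (e e' : (Ideal (𝓞 k))⁰) : ext (K := K) (e * e') = ext e * ext e' :=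
  Subtype.ext (Ideal.map_mul _ _ _)

theorem vcl_ext_mk (e e' : (Ideal (𝓞 k))⁰) (h : ClassGroup.mk0 e = ClassGroup.mk0 e') :
    ClassGroup.mk0 (ext (K := K) e) = ClassGroup.mk0 (ext e') := by
  obtain ⟨x, y, hx, hy, h⟩ := ClassGroup.mk0_eq_mk0_iff.1 h
  have hinj := FaithfulSMul.algebraMap_injective (𝓞 k) (𝓞 K)
  refine ClassGroup.mk0_eq_mk0_iff.2 ⟨algebraMap (𝓞 k) (𝓞 K) x, algebraMap (𝓞 k) (𝓞 K) y,
    (map_ne_zero_iff _ hinj).2 hx, (map_ne_zero_iff _ hinj).2 hy, ?_⟩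
  have := congrArg (Ideal.map (algebraMap (𝓞 k) (𝓞 K))) h
  rw [vcl_map_span, vcl_map_span] at this
  exact this

theorem vcl_cl_mul (I J : (Ideal (𝓞 K))⁰) : cl k K (I * J) = cl k K I * cl k K J := by
  unfold cl
  rw [map_mul]
  rfl

theorem vcl_cl_ext (e : (Ideal (𝓞 k))⁰) : cl k K (ext e) = 1 :=
  (QuotientGroup.eq_one_iff _).2 (Subgroup.subset_closure ⟨e, rfl⟩)

theorem vcl_cl_prin (P : (Ideal (𝓞 K))⁰) (v : 𝓞 K) (h : (P : Ideal (𝓞 K)) = Ideal.span {v}) :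
    cl k K P = 1 := by
  have h1 : ClassGroup.mk0 P = 1 := by
    have := (ClassGroup.mk0_eq_one_iff P.2).2 (by rw [h]; exact ⟨⟨v, rfl⟩⟩)
    exact this
  unfold cl
  rw [h1]
  rfl

/-- `J` is the ideal of the vector `u` of the lattice of `c` -/
def vclR (f : Ideal (𝓞 k)) (b : 𝓞 k) (δ : K) (I : (Ideal (𝓞 K))⁰) (c : Ideal (𝓞 k)) (u : V2 k)
    (J : (Ideal (𝓞 K))⁰) : Prop :=
  ∃ v : 𝓞 K, v ≠ 0 ∧ (v : K) = vclv b δ u ∧ Ideal.span {v} = (J : Ideal (𝓞 K)) *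
    (c.map (algebraMap (𝓞 k) (𝓞 K)) * (f.map (algebraMap (𝓞 k) (𝓞 K)) * (I : Ideal (𝓞 K))))

theorem vcl_ne {f c : Ideal (𝓞 k)} (hf : f ≠ ⊥) (hc : c ≠ ⊥) (I : (Ideal (𝓞 K))⁰) :
    c.map (algebraMap (𝓞 k) (𝓞 K)) * (f.map (algebraMap (𝓞 k) (𝓞 K)) * (I : Ideal (𝓞 K))) ≠ ⊥ := by
  have h1 : (I : Ideal (𝓞 K)) ≠ ⊥ := nonZeroDivisors.ne_zero I.2
  exact mul_ne_zero (vcl_map_ne hc) (mul_ne_zero (vcl_map_ne hf) h1)

theorem vclR_unique {f c : Ideal (𝓞 k)} (hf : f ≠ ⊥) (hc : c ≠ ⊥) {b : 𝓞 k} {δ : K}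
    {I : (Ideal (𝓞 K))⁰} {u : V2 k} {J J' : (Ideal (𝓞 K))⁰} (h : vclR f b δ I c u J)
    (h' : vclR f b δ I c u J') : J = J' := by
  obtain ⟨v, _, e, h1⟩ := h
  obtain ⟨v', _, e', h1'⟩ := h'
  have hv : v = v' := RingOfIntegers.coe_injective (e.trans e'.symm)
  rw [← hv, h1] at h1'
  exact Subtype.ext (mul_right_cancel₀ (vcl_ne hf hc I) h1')

theorem vcl_ci_ne (c : ClassGroup (𝓞 k)) : ci c ≠ ⊥ := nonZeroDivisors.ne_zero (cr c).2

theorem vclR_cl {f : Ideal (𝓞 k)} (hf : f ≠ ⊥) {c : ClassGroup (𝓞 k)} {b : 𝓞 k} {δ : K}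
    {I : (Ideal (𝓞 K))⁰} {u : V2 k} {J : (Ideal (𝓞 K))⁰} (h : vclR f b δ I (ci c) u J) :
    cl k K J = (cl k K I)⁻¹ := by
  obtain ⟨v, _, _, h1⟩ := h
  have hf' : f ∈ (Ideal (𝓞 k))⁰ := mem_nonZeroDivisors_of_ne_zero hf
  have h2 := vcl_cl_prin (k := k) (J * (ext (cr c) * (ext ⟨f, hf'⟩ * I))) v h1.symm
  rw [vcl_cl_mul, vcl_cl_mul, vcl_cl_mul, vcl_cl_ext, vcl_cl_ext, one_mul, one_mul] at h2
  exact eq_inv_of_mul_eq_one_left h2

end Cls

section Orb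

variable {k : Type} [Field k] [NumberField k]

theorem vcl_rep (u : V2 k) (hu : u ≠ 0) : ∃ η : (𝓞 k)ˣ, η • u ∈ Fo k := by
  have h : Quotient.mk (MulAction.orbitRel (𝓞 k)ˣ (V2 k))
      (Quotient.out (Quotient.mk (MulAction.orbitRel (𝓞 k)ˣ (V2 k)) u)) =
      Quotient.mk (MulAction.orbitRel (𝓞 k)ˣ (V2 k)) u := Quotient.out_eq _
  obtain ⟨η, hη⟩ : ∃ η : (𝓞 k)ˣ, η • u =
      Quotient.out (Quotient.mk (MulAction.orbitRel (𝓞 k)ˣ (V2 k)) u) := Quotient.exact h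
  refine ⟨η, ?_, ?_⟩
  · intro h0
    apply hu
    have := congrArg (fun z => η⁻¹ • z) h0
    simpa using this
  · rw [hη]
    exact congrArg _ h.symm

theorem vcl_fo (u : V2 k) (η : (𝓞 k)ˣ) (h1 : u ∈ Fo k) (h2 : η • u ∈ Fo k) : η • u = u := by
  have h : Quotient.mk (MulAction.orbitRel (𝓞 k)ˣ (V2 k)) (η • u) =
      Quotient.mk (MulAction.orbitRel (𝓞 k)ˣ (V2 k)) u := Quotient.sound ⟨η, rfl⟩
  rw [h2.2, h, ← h1.2]

end Orb

section Nrm

variable {k K : Type} [Field k] [NumberField k] [IsTotallyReal k] [Field K] [NumberField K]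
  [Algebra k K] [Algebra.IsQuadraticExtension k K]

theorem vcl_rv (v : Pl k) (x : k) : v x ^ mult v = |rv v x| := by
  have hr : IsReal v := IsTotallyReal.isReal v
  have h1 : mult v = 1 := hr.mult_eq_one
  rw [h1, pow_one]
  have h2 := InfinitePlace.norm_embedding_of_isReal hr x
  rw [← h2]
  rfl

theorem vcl_norm {b D : 𝓞 k} {δ : K} (hD : TP D)
    (hN : ∀ x y : k, Algebra.norm k (algebraMap k K x + algebraMap k K y * w b δ) =
      x ^ 2 + (b : k) * x * y + ((b : k) ^ 2 + (D : k)) / 4 * y ^ 2)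
    (v : 𝓞 K) (u : V2 k) (h : (v : K) = vclv b δ u) :
    nm (Ideal.span {v}) = qd (fun v => rv v (b : k)) (fun v => rv v (D : k)) u := by
  unfold nm
  rw [Ideal.absNorm_span_singleton, Nat.cast_natAbs, Int.cast_abs]
  have h1 : ((Algebra.norm ℤ v : ℤ) : ℝ) = ((Algebra.norm ℚ (v : K) : ℚ) : ℝ) := by
    rw [← Algebra.coe_norm_int]
    push_cast
    rfl
  rw [h1, ← Algebra.norm_norm (S := k), h, ← Rat.cast_abs, ← InfinitePlace.prod_eq_abs_norm]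
  unfold qd vclv
  rw [hN]
  refine Finset.prod_congr rfl fun p _ => ?_
  rw [vcl_rv]
  have e : rv p ((u.1 : k) ^ 2 + (b : k) * (u.1 : k) * (u.2 : k) +
      ((b : k) ^ 2 + (D : k)) / 4 * (u.2 : k) ^ 2) =
      (rv p (u.1 : k) + rv p (u.2 : k) * rv p (b : k) / 2) ^ 2 +
        rv p (D : k) * rv p (u.2 : k) ^ 2 / 4 := by
    simp only [map_add, map_mul, map_pow, map_div₀, map_ofNat]
    ring
  rw [e, abs_of_nonneg]
  have := (hD p).le
  positivity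

theorem vcl_nm_mul (I J : Ideal (𝓞 K)) : nm (I * J) = nm I * nm J := by
  unfold nm
  rw [map_mul, Nat.cast_mul]

theorem vcl_nm_map (I : Ideal (𝓞 k)) : nm (I.map (algebraMap (𝓞 k) (𝓞 K))) = nm I ^ 2 := by
  have h2 : Module.finrank (𝓞 k) (𝓞 K) = 2 := by
    rw [← IsFractionRing.finrank_eq (𝓞 k) k (𝓞 K) K]
    exact Algebra.IsQuadraticExtension.finrank_eq_two k K
  unfold nm
  rw [Ideal.absNorm_algebraMap, h2, Nat.cast_pow]

theorem vcl_nm_pos {I : Ideal (𝓞 k)} (h : I ≠ ⊥) : 0 < nm I := by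
  unfold nm
  have : Ideal.absNorm I ≠ 0 := by rwa [Ne, Ideal.absNorm_eq_zero_iff]
  exact_mod_cast Nat.pos_of_ne_zero this

end Nrm

/-- VCL -/
theorem pf_VCL (hREP : T_REP) (hIDC : T_IDC) (_hHKC : T_HKC) (hCOO : T_COO) (hIDR : T_IDR) :
    T_VCL := by
  classical
  intro k K _ _ _ _ _ _ _ f D b₀ δ hKD hT A b I hAdm hI
  obtain ⟨hKDf, hKDp, hKDs, _, _⟩ := hKD
  have hKD' : KD f D b₀ δ := ⟨hKDf, hKDp, hKDs, by assumption, by assumption⟩
  have hL := (hIDC k K f D b₀ δ hKD' A b hAdm).2.2.1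
  obtain ⟨_, hC2, hC3, _⟩ := hCOO k K D b δ hKDp hKDs
  have hrel := (hIDR k K f D b₀ δ hKD' A b hAdm).1
  have hf := hKDf
  have hA : A ≠ ⊥ := hAdm.1
  -- values
  have hv0 : ∀ u : V2 k, vclv b δ u = 0 → u = 0 := by
    intro u h
    obtain ⟨h1, h2⟩ := hC2 _ _ h
    exact Prod.ext (RingOfIntegers.coe_eq_zero_iff.1 h1) (RingOfIntegers.coe_eq_zero_iff.1 h2)
  have hsub : ∀ u u' : V2 k, vclv b δ u = vclv b δ u' → u = u' := by
    intro u u' h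
    have h1 : vclv b δ (u + -u') = 0 := by
      rw [vclv_add, h, ← vclv_add, add_neg_cancel, vclv_zero]
    have h2 := hv0 _ h1
    rwa [← sub_eq_add_neg, sub_eq_zero] at h2
  -- the ideal of a vector
  have hex : ∀ (c : ClassGroup (𝓞 k)) (u : V2 k), u ∈ Lb (ci c) (A * f) → u ≠ 0 →
      ∃ J : (Ideal (𝓞 K))⁰, vclR f b δ I (ci c) u J := by
    intro c u hu hu0
    obtain ⟨v, hv, e⟩ := vcl_mem hL (ci c) u hu
    have hvne : v ≠ 0 := by
      rintro rfl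
      apply hu0
      apply hv0
      rw [← e]
      rfl
    rw [← hI] at hv
    obtain ⟨J, hJ⟩ := Ideal.dvd_iff_le.2 ((Ideal.span_singleton_le_iff_mem _).2 hv)
    have hJ0 : J ≠ ⊥ := by
      rintro rfl
      rw [Ideal.mul_bot] at hJ
      exact hvne (Ideal.span_singleton_eq_bot.1 hJ)
    exact ⟨⟨J, mem_nonZeroDivisors_of_ne_zero hJ0⟩, v, hvne, e, by rw [hJ, mul_comm]⟩
  let β : ClassGroup (𝓞 k) → V2 k → (Ideal (𝓞 K))⁰ := fun c u =>
    if h : ∃ J : (Ideal (𝓞 K))⁰, vclR f b δ I (ci c) u J then h.choose else 1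
  have hβ : ∀ (c : ClassGroup (𝓞 k)) (u : V2 k) (J : (Ideal (𝓞 K))⁰),
      vclR f b δ I (ci c) u J → β c u = J := by
    intro c u J hJ
    have h : ∃ J : (Ideal (𝓞 K))⁰, vclR f b δ I (ci c) u J := ⟨J, hJ⟩
    have e : β c u = h.choose := dif_pos h
    rw [e]
    exact vclR_unique hf (vcl_ci_ne c) h.choose_spec hJ
  refine ⟨β, ?_, ?_⟩
  · intro c u hu hF
    obtain ⟨J, hJ⟩ := hex c u hu hF.1
    rw [hβ c u J hJ]
    refine ⟨vclR_cl hf hJ, ?_⟩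
    obtain ⟨v, hvne, e, h1⟩ := hJ
    have h2 := vcl_norm hKDp hC3 v u e
    rw [h1, vcl_nm_mul, vcl_nm_mul, vcl_nm_mul, vcl_nm_map, vcl_nm_map] at h2
    have h3 : nm (I : Ideal (𝓞 K)) = nm A := by
      unfold nm
      rw [← hrel, ← hI, Ideal.absNorm_relNorm]
    rw [h3] at h2
    have g1 := vcl_nm_pos (vcl_ci_ne c)
    have g2 := vcl_nm_pos hf
    have g3 := vcl_nm_pos hA
    unfold nf
    rw [← h2, eq_div_iff (by positivity)]
    ring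
  · intro J hJ
    -- existence
    have hIJ : cl k K (J * I) = 1 := by
      rw [vcl_cl_mul, hJ, inv_mul_cancel]
    have hmem : ClassGroup.mk0 (J * I) ∈ Hk k K := (QuotientGroup.eq_one_iff _).1 hIJ
    obtain ⟨e, he⟩ := ((_hHKC k K).1 _).1 hmem
    have hf' : f ∈ (Ideal (𝓞 k))⁰ := mem_nonZeroDivisors_of_ne_zero hf
    obtain ⟨c, hc⟩ : ∃ c : ClassGroup (𝓞 k), ClassGroup.mk0 (cr c * (⟨f, hf'⟩ * e)) = 1 := by
      refine ⟨(ClassGroup.mk0 (⟨f, hf'⟩ * e))⁻¹, ?_⟩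
      have h1 : ClassGroup.mk0 (cr (ClassGroup.mk0 (⟨f, hf'⟩ * e))⁻¹) =
          (ClassGroup.mk0 (⟨f, hf'⟩ * e))⁻¹ := Function.surjInv_eq ClassGroup.mk0_surjective _
      rw [map_mul, h1, inv_mul_cancel]
    have hprin : ClassGroup.mk0 (J * (ext (cr c) * (ext ⟨f, hf'⟩ * I))) = 1 := by
      have h1 : ClassGroup.mk0 (ext (K := K) (cr c * (⟨f, hf'⟩ * e))) = 1 := by
        have h2 := vcl_ext_mk (K := K) (cr c * (⟨f, hf'⟩ * e)) 1 (by rw [hc, map_one])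
        rw [h2]
        have h3 : ext (K := K) (1 : (Ideal (𝓞 k))⁰) = 1 := by
          apply Subtype.ext
          change Ideal.map (algebraMap (𝓞 k) (𝓞 K)) 1 = 1
          rw [Ideal.one_eq_top, Ideal.map_top, Ideal.one_eq_top]
        rw [h3, map_one]
      rw [vcl_ext_mul, vcl_ext_mul, map_mul, map_mul, ← he] at h1
      rw [← h1]
      simp only [map_mul]
      ac_rfl
    have hP := (ClassGroup.mk0_eq_one_iff (J * (ext (cr c) * (ext ⟨f, hf'⟩ * I))).2).1 hprin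
    obtain ⟨v₀, hv₀⟩ := hP.principal
    have hv1 : Ideal.span {v₀} = (J : Ideal (𝓞 K)) * ((ci c).map (algebraMap (𝓞 k) (𝓞 K)) *
        (f.map (algebraMap (𝓞 k) (𝓞 K)) * (I : Ideal (𝓞 K)))) := hv₀.symm
    have hJ0 : (J : Ideal (𝓞 K)) ≠ ⊥ := nonZeroDivisors.ne_zero J.2
    have hv0ne : v₀ ≠ 0 := by
      rintro rfl
      have : (J : Ideal (𝓞 K)) * ((ci c).map (algebraMap (𝓞 k) (𝓞 K)) *
        (f.map (algebraMap (𝓞 k) (𝓞 K)) * (I : Ideal (𝓞 K)))) = ⊥ := by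
        rw [← hv1]
        exact Ideal.span_singleton_eq_bot.2 rfl
      exact mul_ne_zero hJ0 (vcl_ne hf (vcl_ci_ne c) I) this
    have hv2 : v₀ ∈ (ci c).map (algebraMap (𝓞 k) (𝓞 K)) *
        (f.map (algebraMap (𝓞 k) (𝓞 K)) * Id f A b δ) := by
      rw [← hI]
      have : v₀ ∈ Ideal.span {v₀} := Ideal.mem_span_singleton_self v₀
      rw [hv1] at this
      exact Ideal.mul_le_right this
    obtain ⟨u₀, hu₀, e₀⟩ := vcl_vec hL (ci c) v₀ hv2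
    have hu0ne : u₀ ≠ 0 := by
      rintro rfl
      rw [vclv_zero] at e₀
      exact hv0ne (RingOfIntegers.coe_eq_zero_iff.1 e₀)
    have hunit : ∀ (η : (𝓞 k)ˣ) (u : V2 k), vclv b δ (η • u) =
        algebraMap k K ((η : 𝓞 k) : k) * vclv b δ u := by
      intro η u
      rw [← vclv_mul]
      rfl
    obtain ⟨η, hη⟩ := vcl_rep u₀ hu0ne
    have hR0 : vclR f b δ I (ci c) (η • u₀) J := by
      refine ⟨algebraMap (𝓞 k) (𝓞 K) (η : 𝓞 k) * v₀, ?_, ?_, ?_⟩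
      · exact mul_ne_zero ((map_ne_zero_iff _
          (FaithfulSMul.algebraMap_injective (𝓞 k) (𝓞 K))).2 η.ne_zero) hv0ne
      · rw [vcl_coe, hunit, e₀]
      · rw [← hv1]
        apply Ideal.span_singleton_eq_span_singleton.2
        have hu : IsUnit (algebraMap (𝓞 k) (𝓞 K) (η : 𝓞 k)) := η.isUnit.map _
        obtain ⟨ζ, hζ⟩ := hu
        refine ⟨ζ⁻¹, ?_⟩
        rw [← hζ, mul_comm (ζ : 𝓞 K) v₀, mul_assoc, Units.mul_inv, mul_one]
    refine ⟨(c, η • u₀), ⟨?_, hη, hβ _ _ _ hR0⟩, ?_⟩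
    · have h1 : (η : 𝓞 k) • u₀ ∈ Lb (ci c) (A * f) := Submodule.smul_mem _ _ hu₀
      exact h1
    -- uniqueness
    · rintro ⟨c', u'⟩ ⟨hu', hF', hb'⟩
      obtain ⟨J', hJ'⟩ := hex c' u' hu' hF'.1
      have hJJ : J' = J := by
        rw [← hβ c' u' J' hJ']
        exact hb'
      rw [hJJ] at hJ'
      obtain ⟨v', hv'ne, e', h'⟩ := hJ'
      obtain ⟨v, hvne, e1, h1⟩ := hR0
      -- triviality
      have hT1 : Ideal.span {v'} * (ci c).map (algebraMap (𝓞 k) (𝓞 K)) =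
          Ideal.span {v} * (ci c').map (algebraMap (𝓞 k) (𝓞 K)) := by
        rw [h', h1]
        ring
      obtain ⟨p, q, hp, hq, hpq⟩ := hT v' v (ci c) (ci c') hv'ne hvne (vcl_ci_ne c)
        (vcl_ci_ne c') hT1
      -- q v' = p v
      have hI0 : (I : Ideal (𝓞 K)) ≠ ⊥ := nonZeroDivisors.ne_zero I.2
      have hid : Ideal.span {q} * ci c' = Ideal.span {p} * ci c := by
        apply vcl_map_inj (K := K)
        rw [vcl_map_span, vcl_map_span]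
        have h2 : Ideal.span {algebraMap (𝓞 k) (𝓞 K) q} * Ideal.span {v'} =
            Ideal.span {algebraMap (𝓞 k) (𝓞 K) p} * Ideal.span {v} := by
          rw [Ideal.span_singleton_mul_span_singleton, Ideal.span_singleton_mul_span_singleton, hpq]
        rw [h', h1] at h2
        have h3 : Ideal.span {algebraMap (𝓞 k) (𝓞 K) q} *
            (ci c').map (algebraMap (𝓞 k) (𝓞 K)) *
            ((J : Ideal (𝓞 K)) * (f.map (algebraMap (𝓞 k) (𝓞 K)) * (I : Ideal (𝓞 K)))) =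
            Ideal.span {algebraMap (𝓞 k) (𝓞 K) p} *
            (ci c).map (algebraMap (𝓞 k) (𝓞 K)) *
            ((J : Ideal (𝓞 K)) * (f.map (algebraMap (𝓞 k) (𝓞 K)) * (I : Ideal (𝓞 K)))) := by
          calc _ = Ideal.span {algebraMap (𝓞 k) (𝓞 K) q} * ((J : Ideal (𝓞 K)) *
                ((ci c').map (algebraMap (𝓞 k) (𝓞 K)) *
                (f.map (algebraMap (𝓞 k) (𝓞 K)) * (I : Ideal (𝓞 K))))) := by ring
            _ = _ := h2
            _ = _ := by ring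
        exact mul_right_cancel₀ (mul_ne_zero hJ0 (mul_ne_zero (vcl_map_ne hf) hI0)) h3
      have hcc : c' = c := by
        apply (hREP k).2.1
        exact ⟨q, p, hq, hp, hid⟩
      subst hcc
      have hqp : Ideal.span {p} = Ideal.span {q} :=
        (mul_right_cancel₀ (show ci c' ≠ 0 from vcl_ci_ne c') hid).symm
      obtain ⟨ζ, hζ⟩ := Ideal.span_singleton_eq_span_singleton.1 hqp
      -- q = p ζ, so ζ v' = v
      have hvv : algebraMap (𝓞 k) (𝓞 K) (ζ : 𝓞 k) * v' = v := by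
        have h2 : algebraMap (𝓞 k) (𝓞 K) p * (algebraMap (𝓞 k) (𝓞 K) (ζ : 𝓞 k) * v') =
            algebraMap (𝓞 k) (𝓞 K) p * v := by
          rw [← hpq, ← hζ, map_mul, mul_assoc]
        exact mul_left_cancel₀ ((map_ne_zero_iff _
          (FaithfulSMul.algebraMap_injective (𝓞 k) (𝓞 K))).2 hp) h2
      have huu : ζ • u' = η • u₀ := by
        apply hsub
        rw [hunit, ← e', ← e1, ← hvv, vcl_coe]
      have h5 : ζ • u' = u' := vcl_fo u' ζ hF' (by rw [huu]; exact hη)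
      rw [← huu, h5]

end Pool.Agent.H63.NV
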